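import Pool.Agent.H.MP_4640da_an.A

set_option autoImplicit false

namespace Pool.Agent.Results.MP_4640da_an.InfRank

open ComplexConjugate
open scoped ComplexOrder

def PD {G : Type} [Group G] (φ : G → ℂ) : Prop :=
  ∀ (n : ℕ) (g : Fin n → G) (c : Fin n → ℂ), 0 ≤ ∑ i, ∑ j, c i * conj (c j) * φ ((g j)⁻¹ * g i)

def PA (G : Type) [Group G] : Set (G → ℂ) :=
  {φ | PD φ ∧ φ 1 = 1 ∧ ∀ (α : MulAut G) (g : G), φ (α g) = φ g}

theorem result (ι : Type) [Infinite ι] (i : ι) : ∀ τ ∈ (PA (FreeGroup ι)).extremePoints ℝ,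
    τ ≠ (fun _ => 1) → τ (FreeGroup.of i) = 0 :=
  Pool.Agent.H.MP_4640da_an.inf_rank i

end Pool.Agent.Results.MP_4640da_an.InfRank
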