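import Pool.Agent.H.MP_4640da_an.A

set_option autoImplicit false

namespace Pool.Agent.Results.MP_4640da_an.Yes

open ComplexConjugate
open scoped ComplexOrder

def PD {G : Type} [Group G] (φ : G → ℂ) : Prop :=
  ∀ (n : ℕ) (g : Fin n → G) (c : Fin n → ℂ), 0 ≤ ∑ i, ∑ j, c i * conj (c j) * φ ((g j)⁻¹ * g i)

def PA (G : Type) [Group G] : Set (G → ℂ) :=
  {φ | PD φ ∧ φ 1 = 1 ∧ ∀ (α : MulAut G) (g : G), φ (α g) = φ g}

theorem result (r : ℕ) (i : Fin r) : ∃ τ ∈ (PA (FreeGroup (Fin r))).extremePoints ℝ,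
    τ ≠ (fun _ => 1) ∧ τ (FreeGroup.of i) ≠ 0 ∧ τ (FreeGroup.of i) = -1 / (2 ^ r - 1) := by
  obtain ⟨τ, h1, h2⟩ := Pool.Agent.H.MP_4640da_an.fin_rank r i
  have N2 : (2 : ℝ) ≤ 2 ^ r := by simpa using pow_le_pow_right₀ (one_le_two (α := ℝ)) (Fin.pos i)
  have N1 : (2 : ℂ) ^ r - 1 ≠ 0 := by exact_mod_cast (by linarith : (2 : ℝ) ^ r - 1 ≠ 0)
  refine ⟨τ, h1, fun h => ?_, by rw [h2]; exact div_ne_zero (by norm_num) N1, h2⟩
  rw [h, eq_div_iff N1] at h2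
  exact pow_ne_zero r (two_ne_zero (α := ℂ)) (by linear_combination h2)

end Pool.Agent.Results.MP_4640da_an.Yes
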